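import Mathlib

/-!
# A finitely generated hard set that is not regular

Let `a`, `b`, `e`, `s` be four letters. The hard set generated by the sixteen words
`s`, `sa`, `sb`, `se`, `as`, `bs`, `es`, `ese`, `ase`, `asbae`, `bsae`, `bsabae`, `aesa`,
`abaesa`, `baesb`, `babaesb` contains all words `y s y` with `y = (ba)^k e`, but no word
`y s y'` with `y = (ba)^i e`, `y' = (ba)^j e` and `i ≠ j`. So it is not regular.
-/

namespace Pool.Agent.Results.MP_d49585_lc.NonRegularHardSet

/-- A set `H` of words is hard if `vν`, `vγν` and `vδν` in `H` imply `vγδν` in `H`. -/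
def IsHard {α : Type} (H : Set (List α)) : Prop :=
  ∀ v γ δ ν : List α, v ++ ν ∈ H → v ++ γ ++ ν ∈ H → v ++ δ ++ ν ∈ H → v ++ γ ++ δ ++ ν ∈ H

/-- The hard set generated by `F`: the words lying in every hard set that contains `F`. -/
def hardSet {α : Type} (F : Set (List α)) : Language α :=
  {w | ∀ H : Set (List α), IsHard H → F ⊆ H → w ∈ H}

section

variable {α : Type}

theorem isHard_hardSet (F : Set (List α)) : IsHard {w | w ∈ hardSet F} := by
  intro v γ δ ν h0 h1 h2 H hH hF
  exact hH v γ δ ν (h0 H hH hF) (h1 H hH hF) (h2 H hH hF)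

theorem subset_hardSet {F : Set (List α)} {w : List α} (h : w ∈ F) : w ∈ hardSet F :=
  fun _ _ hF => hF h

theorem step {F : Set (List α)} (v γ δ ν : List α) (h0 : v ++ ν ∈ hardSet F)
    (h1 : v ++ γ ++ ν ∈ hardSet F) (h2 : v ++ δ ++ ν ∈ hardSet F) :
    v ++ γ ++ δ ++ ν ∈ hardSet F :=
  isHard_hardSet F v γ δ ν h0 h1 h2

/-- the bilinear form on pairs of words given by weights of pairs of letters -/
def Bil (wt : α → α → ℤ) (p w : List α) : ℤ := (p.map fun x => (w.map (wt x)).sum).sum

theorem Bil_append_left (wt : α → α → ℤ) (p q w : List α) :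
    Bil wt (p ++ q) w = Bil wt p w + Bil wt q w := by
  simp [Bil]

theorem Bil_append_right (wt : α → α → ℤ) (p u w : List α) :
    Bil wt p (u ++ w) = Bil wt p u + Bil wt p w := by
  induction p with
  | nil => simp [Bil]
  | cons x p ih =>
    simp only [Bil, List.map_cons, List.sum_cons, List.map_append, List.sum_append] at ih ⊢
    linarith

theorem split_unique {s : α} : ∀ {p p' w w' : List α}, s ∉ p → s ∉ p' →
    p ++ s :: w = p' ++ s :: w' → p = p' ∧ w = w'
  | [], [], w, w', _, _, h => by simpa using h
  | [], y :: p', w, w', _, hp', h => by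
    simp only [List.nil_append, List.cons_append, List.cons.injEq] at h
    exact absurd (h.1 ▸ List.mem_cons_self) hp'
  | y :: p, [], w, w', hp, _, h => by
    simp only [List.nil_append, List.cons_append, List.cons.injEq] at h
    exact absurd (h.1 ▸ List.mem_cons_self) hp
  | y :: p, y' :: p', w, w', hp, hp', h => by
    simp only [List.cons_append, List.cons.injEq] at h
    have := split_unique (p := p) (p' := p') (fun h => hp (List.mem_cons_of_mem _ h))
      (fun h => hp' (List.mem_cons_of_mem _ h)) h.2
    exact ⟨by rw [h.1, this.1], this.2⟩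

/-- the invariant: exactly one letter `s`, and the form vanishes on the two sides of it -/
def Inv (s : α) (wt : α → α → ℤ) : Set (List α) :=
  {x | ∃ p w, x = p ++ s :: w ∧ s ∉ p ∧ s ∉ w ∧ Bil wt p w = 0}

theorem isHard_Inv [DecidableEq α] (s : α) (wt : α → α → ℤ) : IsHard (Inv s wt) := by
  rintro v γ δ ν ⟨p0, w0, h0, hp0, hw0, hB0⟩ ⟨p1, w1, h1, hp1, hw1, hB1⟩
    ⟨p2, w2, h2, hp2, hw2, hB2⟩
  have c0 := congrArg (List.count s) h0
  have c1 := congrArg (List.count s) h1
  have c2 := congrArg (List.count s) h2
  simp only [List.count_append, List.count_cons_self, List.count_eq_zero_of_not_mem hp0,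
    List.count_eq_zero_of_not_mem hw0, List.count_eq_zero_of_not_mem hp1,
    List.count_eq_zero_of_not_mem hw1, List.count_eq_zero_of_not_mem hp2,
    List.count_eq_zero_of_not_mem hw2] at c0 c1 c2
  have hγ : s ∉ γ := List.count_eq_zero.1 (by omega)
  have hδ : s ∉ δ := List.count_eq_zero.1 (by omega)
  rcases List.append_eq_append_iff.1 h0 with ⟨u, hu, hν⟩ | ⟨u, hv, hu⟩
  · -- the letter `s` lies in `ν`
    subst hu hν
    have hv : s ∉ v := fun h => hp0 (List.mem_append_left _ h)
    have hu : s ∉ u := fun h => hp0 (List.mem_append_right _ h)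
    have e1 := split_unique (p := v ++ γ ++ u) (w := w0) (by simp [hv, hu, hγ]) hp1
      (by rw [← h1]; simp)
    have e2 := split_unique (p := v ++ δ ++ u) (w := w0) (by simp [hv, hu, hδ]) hp2
      (by rw [← h2]; simp)
    rw [← e1.1, ← e1.2] at hB1
    rw [← e2.1, ← e2.2] at hB2
    refine ⟨v ++ γ ++ δ ++ u, w0, by simp, by simp [hv, hu, hγ, hδ], hw0, ?_⟩
    simp only [Bil_append_left] at hB0 hB1 hB2 ⊢
    linarith
  · -- the letter `s` lies in `v`
    rcases u with _ | ⟨y, u⟩
    · simp only [List.append_nil, List.nil_append] at hv hu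
      subst hv hu
      have e1 := split_unique (p := v ++ γ) (w := w0) (by simp [hp0, hγ]) hp1
        (by rw [← h1])
      have e2 := split_unique (p := v ++ δ) (w := w0) (by simp [hp0, hδ]) hp2
        (by rw [← h2])
      rw [← e1.1, ← e1.2] at hB1
      rw [← e2.1, ← e2.2] at hB2
      refine ⟨v ++ γ ++ δ, w0, by simp, by simp [hp0, hγ, hδ], hw0, ?_⟩
      simp only [Bil_append_left] at hB0 hB1 hB2 ⊢
      linarith
    · simp only [List.cons_append, List.cons.injEq] at hu
      obtain ⟨rfl, hw⟩ := hu
      subst hv hw
      have hν : s ∉ ν := fun h => hw0 (List.mem_append_right _ h)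
      have hu : s ∉ u := fun h => hw0 (List.mem_append_left _ h)
      have e1 := split_unique (p := p0) (w := u ++ γ ++ ν) hp0 hp1
        (by rw [← h1]; simp)
      have e2 := split_unique (p := p0) (w := u ++ δ ++ ν) hp0 hp2
        (by rw [← h2]; simp)
      rw [← e1.1, ← e1.2] at hB1
      rw [← e2.1, ← e2.2] at hB2
      refine ⟨p0, u ++ γ ++ δ ++ ν, by simp, hp0, by simp [hu, hν, hγ, hδ], ?_⟩
      simp only [Bil_append_right] at hB0 hB1 hB2 ⊢
      linarith

/-- the weights -/
def weight [DecidableEq α] (a b e : α) (x y : α) : ℤ :=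
  if x = a then (if y = a then 1 else if y = b then -1 else 0)
  else if x = b then (if y = a then -1 else if y = b then 1 else if y = e then 1 else 0)
  else if x = e then (if y = a then -1 else 0) else 0

/-- the words `(ba)^k e` -/
def yy (a b e : α) : ℕ → List α
  | 0 => [e]
  | k + 1 => b :: a :: yy a b e k

/-- the sixteen generators -/
def gens (a b e s : α) : Set (List α) :=
  {[s], [s, a], [s, b], [s, e], [a, s], [b, s], [e, s], [e, s, e],
   [a, s, e], [a, s, b, a, e], [b, s, a, e], [b, s, a, b, a, e],
   [a, e, s, a], [a, b, a, e, s, a], [b, a, e, s, b], [b, a, b, a, e, s, b]}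

theorem gens_finite (a b e s : α) : (gens a b e s).Finite := by
  unfold gens
  exact Set.toFinite _

variable {a b e s : α}

theorem mem_yy {x : α} {k : ℕ} (h : x ∈ yy a b e k) : x = a ∨ x = b ∨ x = e := by
  induction k with
  | zero => simp only [yy, List.mem_singleton] at h; tauto
  | succ k ih =>
    simp only [yy, List.mem_cons] at h
    rcases h with h | h | h
    · tauto
    · tauto
    · exact ih h

theorem s_left {w : List α} (h : ∀ x ∈ w, x = a ∨ x = b ∨ x = e) :
    s :: w ∈ hardSet (gens a b e s) := by
  induction w with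
  | nil => exact subset_hardSet (by simp [gens])
  | cons x w ih =>
    have h1 : [s, x] ∈ hardSet (gens a b e s) := by
      rcases h x List.mem_cons_self with rfl | rfl | rfl <;>
      exact subset_hardSet (by simp [gens])
    have h2 := ih fun y hy => h y (List.mem_cons_of_mem _ hy)
    have h0 : [s] ∈ hardSet (gens a b e s) := subset_hardSet (by simp [gens])
    simpa using step [s] [x] w [] (by simpa using h0) (by simpa using h1) (by simpa using h2)

theorem s_right {w : List α} (h : ∀ x ∈ w, x = a ∨ x = b ∨ x = e) :
    w ++ [s] ∈ hardSet (gens a b e s) := by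
  induction w with
  | nil => exact subset_hardSet (by simp [gens])
  | cons x w ih =>
    have h1 : [x, s] ∈ hardSet (gens a b e s) := by
      rcases h x List.mem_cons_self with rfl | rfl | rfl <;>
      exact subset_hardSet (by simp [gens])
    have h2 := ih fun y hy => h y (List.mem_cons_of_mem _ hy)
    have h0 : [s] ∈ hardSet (gens a b e s) := subset_hardSet (by simp [gens])
    simpa using step [] [x] w [s] (by simpa using h0) (by simpa using h1) (by simpa using h2)

theorem two_step {P : ℕ → Prop} (h0 : P 0) (h1 : P 1) (h : ∀ k, P k → P (k + 1) → P (k + 2)) :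
    ∀ k, P k := by
  intro k
  have : P k ∧ P (k + 1) := by
    induction k with
    | zero => exact ⟨h0, h1⟩
    | succ k ih => exact ⟨ih.2, h k ih.1 ih.2⟩
  exact this.1

theorem fam0 (k : ℕ) : a :: s :: yy a b e k ∈ hardSet (gens a b e s) := by
  refine two_step (P := fun k => a :: s :: yy a b e k ∈ hardSet (gens a b e s)) ?_ ?_ ?_ k
  · exact subset_hardSet (by simp [gens, yy])
  · exact subset_hardSet (by simp [gens, yy])
  · intro k h h'
    simpa [yy] using step [a, s] [b, a] [b, a] (yy a b e k) (by simpa using h)
      (by simpa [yy] using h') (by simpa [yy] using h')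

theorem fam1 (k : ℕ) : b :: s :: a :: yy a b e k ∈ hardSet (gens a b e s) := by
  refine two_step (P := fun k => b :: s :: a :: yy a b e k ∈ hardSet (gens a b e s)) ?_ ?_ ?_ k
  · exact subset_hardSet (by simp [gens, yy])
  · exact subset_hardSet (by simp [gens, yy])
  · intro k h h'
    simpa [yy] using step [b, s, a] [b, a] [b, a] (yy a b e k) (by simpa using h)
      (by simpa [yy] using h') (by simpa [yy] using h')

theorem fam2 (k : ℕ) : a :: yy a b e k ++ [s, a] ∈ hardSet (gens a b e s) := by
  refine two_step (P := fun k => a :: yy a b e k ++ [s, a] ∈ hardSet (gens a b e s)) ?_ ?_ ?_ k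
  · exact subset_hardSet (by simp [gens, yy])
  · exact subset_hardSet (by simp [gens, yy])
  · intro k h h'
    simpa [yy] using step [a] [b, a] [b, a] (yy a b e k ++ [s, a]) (by simpa using h)
      (by simpa [yy] using h') (by simpa [yy] using h')

theorem fam3 (k : ℕ) : yy a b e (k + 1) ++ [s, b] ∈ hardSet (gens a b e s) := by
  refine two_step (P := fun k => yy a b e (k + 1) ++ [s, b] ∈ hardSet (gens a b e s)) ?_ ?_ ?_ k
  · exact subset_hardSet (by simp [gens, yy])
  · exact subset_hardSet (by simp [gens, yy])
  · intro k h h'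
    simpa [yy] using step [] [b, a] [b, a] (yy a b e (k + 1) ++ [s, b]) (by simpa using h)
      (by simpa [yy] using h') (by simpa [yy] using h')

theorem diag (k : ℕ) : yy a b e k ++ s :: yy a b e k ∈ hardSet (gens a b e s) := by
  induction k with
  | zero => exact subset_hardSet (by simp [gens, yy])
  | succ k ih =>
    have m0 : ∀ x ∈ yy a b e k, x = a ∨ x = b ∨ x = e := fun x hx => mem_yy hx
    have m1 : ∀ x ∈ a :: yy a b e k, x = a ∨ x = b ∨ x = e := by
      intro x hx
      rcases List.mem_cons.1 hx with rfl | hx
      · exact Or.inl rfl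
      · exact mem_yy hx
    have m2 : ∀ x ∈ yy a b e (k + 1), x = a ∨ x = b ∨ x = e := fun x hx => mem_yy hx
    -- insert `a` on the left
    have h1 : a :: yy a b e k ++ s :: yy a b e k ∈ hardSet (gens a b e s) := by
      simpa using step [] [a] (yy a b e k) (s :: yy a b e k) (by simpa using s_left m0)
        (by simpa using fam0 k) (by simpa using ih)
    -- insert `a` on the right
    have h2 : a :: yy a b e k ++ s :: a :: yy a b e k ∈ hardSet (gens a b e s) := by
      simpa using step (a :: yy a b e k ++ [s]) [a] (yy a b e k) []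
        (by simpa using s_right m1) (by simpa using fam2 k) (by simpa using h1)
    -- insert `b` on the left
    have h3 : b :: a :: yy a b e k ++ s :: a :: yy a b e k ∈ hardSet (gens a b e s) := by
      simpa using step [] [b] (a :: yy a b e k) (s :: a :: yy a b e k)
        (by simpa using s_left m1) (by simpa using fam1 k) (by simpa using h2)
    -- insert `b` on the right
    simpa [yy] using step (b :: a :: yy a b e k ++ [s]) [b] (a :: yy a b e k) []
      (by simpa [yy] using s_right m2) (by simpa [yy] using fam3 k) (by simpa using h3)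

theorem gens_subset [DecidableEq α] (hab : a ≠ b) (hae : a ≠ e) (has : a ≠ s) (hbe : b ≠ e)
    (hbs : b ≠ s) (hes : e ≠ s) : gens a b e s ⊆ Inv s (weight a b e) := by
  intro x hx
  simp only [gens, Set.mem_insert_iff, Set.mem_singleton_iff] at hx
  have key : ∀ p w : List α, s ∉ p → s ∉ w → Bil (weight a b e) p w = 0 →
      p ++ s :: w ∈ Inv s (weight a b e) := fun p w h1 h2 h3 => ⟨p, w, rfl, h1, h2, h3⟩
  have hba := hab.symm
  have hea := hae.symm
  have hsa := has.symm
  have heb := hbe.symm
  have hsb := hbs.symm
  have hse := hes.symm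
  rcases hx with rfl | rfl | rfl | rfl | rfl | rfl | rfl | rfl | rfl | rfl | rfl | rfl | rfl |
    rfl | rfl | rfl
  · exact key [] [] (by simp) (by simp) (by simp [Bil])
  · exact key [] [a] (by simp) (by simp [*]) (by simp [Bil])
  · exact key [] [b] (by simp) (by simp [*]) (by simp [Bil])
  · exact key [] [e] (by simp) (by simp [*]) (by simp [Bil])
  · exact key [a] [] (by simp [*]) (by simp) (by simp [Bil])
  · exact key [b] [] (by simp [*]) (by simp) (by simp [Bil])
  · exact key [e] [] (by simp [*]) (by simp) (by simp [Bil])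
  · exact key [e] [e] (by simp [*]) (by simp [*]) (by simp [Bil, weight, *])
  · exact key [a] [e] (by simp [*]) (by simp [*]) (by simp [Bil, weight, *])
  · exact key [a] [b, a, e] (by simp [*]) (by simp [*]) (by simp [Bil, weight, *])
  · exact key [b] [a, e] (by simp [*]) (by simp [*]) (by simp [Bil, weight, *])
  · exact key [b] [a, b, a, e] (by simp [*]) (by simp [*]) (by simp [Bil, weight, *])
  · exact key [a, e] [a] (by simp [*]) (by simp [*]) (by simp [Bil, weight, *])
  · exact key [a, b, a, e] [a] (by simp [*]) (by simp [*]) (by simp [Bil, weight, *])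
  · exact key [b, a, e] [b] (by simp [*]) (by simp [*]) (by simp [Bil, weight, *])
  · exact key [b, a, b, a, e] [b] (by simp [*]) (by simp [*]) (by simp [Bil, weight, *])

theorem Bil_yy [DecidableEq α] (hab : a ≠ b) (hae : a ≠ e) (hbe : b ≠ e) (i j : ℕ) :
    Bil (weight a b e) (yy a b e i) (yy a b e j) = i - j := by
  have hba := hab.symm
  have hea := hae.symm
  have heb := hbe.symm
  have ha : ∀ j : ℕ, ((yy a b e j).map (weight a b e a)).sum = 0 := by
    intro j
    induction j with
    | zero => simp [yy, weight, *]
    | succ j ih => simp [yy, weight, *]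
  have hb : ∀ j : ℕ, ((yy a b e j).map (weight a b e b)).sum = 1 := by
    intro j
    induction j with
    | zero => simp [yy, weight, *]
    | succ j ih => simp [yy, weight, *]
  have he : ∀ j : ℕ, ((yy a b e j).map (weight a b e e)).sum = -j := by
    intro j
    induction j with
    | zero => simp [yy, weight, *]
    | succ j ih => simp [yy, weight, *]
  induction i with
  | zero => simp [yy, Bil, he]
  | succ i ih =>
    simp only [Bil, yy, List.map_cons, List.sum_cons, ha, hb] at ih ⊢
    rw [ih]
    push_cast
    ring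

theorem not_regular [DecidableEq α] (hab : a ≠ b) (hae : a ≠ e) (has : a ≠ s) (hbe : b ≠ e)
    (hbs : b ≠ s) (hes : e ≠ s) : ¬ (hardSet (gens a b e s)).IsRegular := by
  rintro ⟨σ, _, M, hM⟩
  obtain ⟨i, j, hij, h⟩ := Finite.exists_ne_map_eq_of_infinite
    (fun k : ℕ => M.eval (yy a b e k ++ [s]))
  have hj : yy a b e j ++ s :: yy a b e j ∈ M.accepts := by
    rw [hM]; exact diag j
  have hi : yy a b e i ++ s :: yy a b e j ∈ M.accepts := by
    rw [DFA.mem_accepts] at hj ⊢
    have e1 : ∀ k, yy a b e k ++ s :: yy a b e j = (yy a b e k ++ [s]) ++ yy a b e j := by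
      intro k; simp
    rw [e1, DFA.eval, DFA.evalFrom_of_append] at hj ⊢
    have h' : M.evalFrom M.start (yy a b e i ++ [s]) = M.evalFrom M.start (yy a b e j ++ [s]) := h
    rw [h']
    exact hj
  rw [hM] at hi
  obtain ⟨p, w, h1, hp, hw, hB⟩ := hi _ (isHard_Inv s (weight a b e))
    (gens_subset hab hae has hbe hbs hes)
  have hs : ∀ k, s ∉ yy a b e k := by
    intro k hk
    rcases mem_yy hk with h | h | h
    · exact has h.symm
    · exact hbs h.symm
    · exact hes h.symm
  obtain ⟨rfl, rfl⟩ := split_unique (hs i) hp h1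
  rw [Bil_yy hab hae hbe] at hB
  apply hij
  have : (i : ℤ) = j := by linarith
  exact_mod_cast this

end

/-- Over every finite alphabet with at least four letters there is a finite language that
generates a non-regular hard set. -/
theorem result (α : Type) [Fintype α] (hα : 4 ≤ Fintype.card α) :
    ∃ F : Set (List α), F.Finite ∧ ¬ (hardSet F).IsRegular := by
  classical
  have h4 : Nonempty (Fin 4 ↪ α) := by
    apply Function.Embedding.nonempty_of_card_le
    simpa using hα
  obtain ⟨f⟩ := h4
  have hne : ∀ i j : Fin 4, i ≠ j → f i ≠ f j := fun i j h h' => h (f.injective h')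
  exact ⟨gens (f 0) (f 1) (f 2) (f 3), gens_finite _ _ _ _,
    not_regular (hne 0 1 (by decide)) (hne 0 2 (by decide)) (hne 0 3 (by decide))
      (hne 1 2 (by decide)) (hne 1 3 (by decide)) (hne 2 3 (by decide))⟩

end Pool.Agent.Results.MP_d49585_lc.NonRegularHardSet
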